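import Pool.Agent.GEN.StmtsZD

/-!
# GEN, row RHA (helper65): splitting of `rho`
-/

set_option autoImplicit false

namespace Pool.Agent.GEN.H65

open Finset Pool.Agent.GEN

open scoped Classical in
theorem rha_split {σ : Type} [Fintype σ] (hD : DcbStmt) {A : Type} [CommRing A] (X : A)
    (z : Finset (σ →₀ ℕ) → A) (I : Finset (σ →₀ ℕ)) (K E : Finset σ) (hKE : Disjoint K E) :
    rho X z I (K ∪ E) = ∑ B ∈ E.powerset, (1 - X) ^ B.card * X ^ (E.card - B.card) *
      rho X z (keep I E B) K := by
  obtain ⟨-, -, h3, -, -⟩ := hD σ I ∅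
  have hsd : (K ∪ E) \ K = E := by
    rw [Finset.union_sdiff_left]
    exact Finset.sdiff_eq_self_of_disjoint hKE.symm
  have hkeep : ∀ S B : Finset σ, S ⊆ K → B ⊆ E → keep (keep I E B) K S = keep I (K ∪ E) (S ∪ B) := by
    intro S B hS hB
    have h4 := h3 (K ∪ E) K S B Finset.subset_union_left hS (by rw [hsd]; exact hB)
    rw [hsd] at h4
    exact h4
  unfold rho
  have e1 : ∀ B ∈ E.powerset, (1 - X) ^ B.card * X ^ (E.card - B.card) *
      ∑ K' ∈ K.powerset, (1 - X) ^ K'.card * X ^ (K.card - K'.card) *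
        z (keep (keep I E B) K K') = ∑ K' ∈ K.powerset, (1 - X) ^ B.card * X ^ (E.card - B.card) *
      ((1 - X) ^ K'.card * X ^ (K.card - K'.card) * z (keep (keep I E B) K K')) := by
    intro B _
    rw [Finset.mul_sum]
  rw [Finset.sum_congr rfl e1, ← Finset.sum_product']
  refine Finset.sum_nbij' (fun K' => (K' ∩ E, K' ∩ K)) (fun p => p.2 ∪ p.1) ?_ ?_ ?_ ?_ ?_
  · intro K' _
    rw [Finset.mem_product, Finset.mem_powerset, Finset.mem_powerset]
    exact ⟨Finset.inter_subset_right, Finset.inter_subset_right⟩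
  · intro p hp
    rw [Finset.mem_product, Finset.mem_powerset, Finset.mem_powerset] at hp
    rw [Finset.mem_powerset]
    exact Finset.union_subset_union hp.2 hp.1
  · intro K' hK'
    rw [Finset.mem_powerset] at hK'
    show (K' ∩ K) ∪ (K' ∩ E) = K'
    rw [← Finset.inter_union_distrib_left]
    exact Finset.inter_eq_left.2 hK'
  · intro p hp
    rw [Finset.mem_product, Finset.mem_powerset, Finset.mem_powerset] at hp
    obtain ⟨B, S⟩ := p
    obtain ⟨hB, hS⟩ := hp
    show ((S ∪ B) ∩ E, (S ∪ B) ∩ K) = (B, S)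
    have h5 : (S ∪ B) ∩ E = B := by
      rw [Finset.union_inter_distrib_right, Finset.inter_eq_left.2 hB,
        Finset.disjoint_iff_inter_eq_empty.1 (Finset.disjoint_of_subset_left hS hKE),
        Finset.empty_union]
    have h6 : (S ∪ B) ∩ K = S := by
      rw [Finset.union_inter_distrib_right, Finset.inter_eq_left.2 hS,
        Finset.disjoint_iff_inter_eq_empty.1 (Finset.disjoint_of_subset_left hB hKE.symm),
        Finset.union_empty]
    rw [h5, h6]
  · intro K' hK'
    rw [Finset.mem_powerset] at hK'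
    show (1 - X) ^ K'.card * X ^ ((K ∪ E).card - K'.card) * z (keep I (K ∪ E) K') =
      (1 - X) ^ (K' ∩ E).card * X ^ (E.card - (K' ∩ E).card) *
        ((1 - X) ^ (K' ∩ K).card * X ^ (K.card - (K' ∩ K).card) *
          z (keep (keep I E (K' ∩ E)) K (K' ∩ K)))
    have h7 : (K' ∩ K) ∪ (K' ∩ E) = K' := by
      rw [← Finset.inter_union_distrib_left]
      exact Finset.inter_eq_left.2 hK'
    rw [hkeep (K' ∩ K) (K' ∩ E) Finset.inter_subset_right Finset.inter_subset_right, h7]
    have h8 : K'.card = (K' ∩ K).card + (K' ∩ E).card := by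
      have h9 : Disjoint (K' ∩ K) (K' ∩ E) :=
        Finset.disjoint_of_subset_left Finset.inter_subset_right
          (Finset.disjoint_of_subset_right Finset.inter_subset_right hKE)
      rw [← Finset.card_union_of_disjoint h9, h7]
    have h10 : (K ∪ E).card = K.card + E.card := Finset.card_union_of_disjoint hKE
    have h11 : (K' ∩ K).card ≤ K.card := Finset.card_le_card Finset.inter_subset_right
    have h12 : (K' ∩ E).card ≤ E.card := Finset.card_le_card Finset.inter_subset_right
    have h13 : (K ∪ E).card - K'.card =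
        (E.card - (K' ∩ E).card) + (K.card - (K' ∩ K).card) := by
      omega
    rw [h13, pow_add X, h8, pow_add (1 - X)]
    ring

open scoped Classical in
theorem rha_one {σ : Type} {A : Type} [CommRing A] (X : A) (E : Finset σ) :
    ∑ B ∈ E.powerset, (1 - X) ^ B.card * X ^ (E.card - B.card) = 1 := by
  rw [Finset.sum_pow_mul_eq_add_pow, sub_add_cancel, one_pow]

open scoped Classical in
theorem keep_self {σ : Type} (I : Finset (σ →₀ ℕ)) (E B : Finset σ)
    (h : ∀ j ∈ E, ∀ α ∈ I, α j = 0) : keep I E B = I := by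
  unfold keep
  exact Finset.filter_true_of_mem (fun α hα j hj _ => h j hj α hα)

theorem rha (hD : DcbStmt) : RhaStmt := by
  intro σ _ A _ X z I K E hKE
  refine ⟨rha_split hD X z I K E hKE, rha_one X E, ?_⟩
  intro h
  rw [rha_split hD X z I K E hKE]
  have hk : ∀ B : Finset σ, keep I E B = I := fun B => keep_self I E B h
  have e1 : ∀ B ∈ E.powerset, (1 - X) ^ B.card * X ^ (E.card - B.card) *
      rho X z (keep I E B) K = (1 - X) ^ B.card * X ^ (E.card - B.card) * rho X z I K := by
    intro B _
    rw [hk B]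
  rw [Finset.sum_congr rfl e1, ← Finset.sum_mul, rha_one, one_mul]

end Pool.Agent.GEN.H65
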